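import Pool.Agent.N928.FG.Stm

/-!
# Project FG (helper928), NU: the step distribution on the free product (helper281)
-/

set_option autoImplicit false

namespace Pool.Agent.N281.FG

open Pool.Agent.Helper125 Pool.Agent.Helper125.Gam Pool.Agent.N928.FG

theorem inc_inj (b : Bool) : Function.Injective (inc b : A →* Ga) :=
  Monoid.CoprodI.of_injective b

theorem sum_nu (β : ℝ) (g : Ga → ℝ) :
    (nu β).sum (fun y a => a * g y) = (1 / 2) * ((mu β).sum (fun a t => t * g (inc true a)) +
      (mu β).sum (fun a t => t * g (inc false a))) := by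
  unfold nu
  rw [Finsupp.sum_smul_index (fun i => by ring)]
  rw [Finsupp.sum_add_index' (fun i => by ring) (fun i a b => by ring)]
  rw [Finsupp.sum_mapDomain_index (fun i => by ring) (fun i a b => by ring)]
  rw [Finsupp.sum_mapDomain_index (fun i => by ring) (fun i a b => by ring)]
  rw [mul_add, Finsupp.mul_sum, Finsupp.mul_sum]
  congr 1
  · refine Finsupp.sum_congr fun a _ => by ring
  · refine Finsupp.sum_congr fun a _ => by ring

/-- the step distribution on the free product -/
theorem t_NU : S_MU → S_NU := by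
  intro hMU β hβ hβ2
  obtain ⟨pos, tot, sym, _, _, _⟩ := hMU β hβ hβ2
  have hpos : ∀ (b : Bool) (x : Ga), 0 ≤ (mu β).mapDomain (inc b) x := by
    intro b x
    by_cases hx : x ∈ Set.range (inc b : A →* Ga)
    · obtain ⟨a, rfl⟩ := hx
      rw [Finsupp.mapDomain_apply (inc_inj b)]
      exact pos a
    · rw [Finsupp.mapDomain_notin_range _ _ hx]
  have hsym : ∀ (b : Bool) (x : Ga),
      (mu β).mapDomain (inc b) x⁻¹ = (mu β).mapDomain (inc b) x := by
    intro b x
    by_cases hx : x ∈ Set.range (inc b : A →* Ga)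
    · obtain ⟨a, rfl⟩ := hx
      rw [← map_inv, Finsupp.mapDomain_apply (inc_inj b), Finsupp.mapDomain_apply (inc_inj b)]
      exact sym a
    · have hx' : x⁻¹ ∉ Set.range (inc b : A →* Ga) := by
        rintro ⟨a, ha⟩
        exact hx ⟨a⁻¹, by rw [map_inv, ha, inv_inv]⟩
      rw [Finsupp.mapDomain_notin_range _ _ hx, Finsupp.mapDomain_notin_range _ _ hx']
  have hnu : ∀ x, nu β x =
      (1 / 2) * ((mu β).mapDomain (inc true) x + (mu β).mapDomain (inc false) x) := fun x => rfl
  refine ⟨?_, ?_, ?_, ?_⟩
  · intro x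
    rw [hnu]
    have h1 := hpos true x
    have h2 := hpos false x
    linarith
  · have h := sum_nu β (fun _ => 1)
    simp only [mul_one] at h
    rw [h, tot]
    norm_num
  · intro x
    rw [hnu, hnu, hsym, hsym]
  · intro h x
    exact sum_nu β (fun y => h (y⁻¹ * x))

end Pool.Agent.N281.FG
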